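import Pool.Agent.Helper55.K4.Mix

/-!
# K4: upper bound for the number of lethal quadruples of an optimal cover

The three statements about `Phi` (the tree certificate and the two exact values) are taken as
hypotheses here, so that this file does not depend on them.
-/

set_option autoImplicit false

open scoped BigOperators
open Finset

namespace K4

/-- counting the elements with a property that forces a positive dose -/
theorem card_filter_eq {n : ℕ} (L : Finset (Finset (Fin n))) (g : Fin n → ℝ)
    (w : Finset (Fin n) → ℝ)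
    (heq : ∀ i, g i ≠ 0 → ∑ S ∈ L with i ∈ S, w S = 1) (p : Fin n → Prop) [DecidablePred p]
    (hp : ∀ i, p i → g i ≠ 0) :
    ((univ.filter p).card : ℝ) = ∑ S ∈ L, w S * ((S.filter p).card : ℝ) := by
  classical
  have h1 : ((univ.filter p).card : ℝ) = ∑ i ∈ univ.filter p, ∑ S ∈ L with i ∈ S, w S := by
    rw [Finset.sum_congr rfl fun i hi => heq i (hp i (Finset.mem_filter.1 hi).2)]
    simp
  rw [h1]
  simp only [Finset.sum_filter]
  rw [Finset.sum_congr rfl (g := fun i => ∑ S ∈ L, if p i then (if i ∈ S then w S else 0) else 0)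
    (fun i _ => by by_cases h : p i <;> simp [h])]
  rw [Finset.sum_comm]
  refine Finset.sum_congr rfl fun S _ => ?_
  have h2 : ∑ i, (if p i then (if i ∈ S then w S else 0) else 0)
      = ∑ i ∈ S.filter p, w S := by
    rw [← Finset.sum_filter, ← Finset.sum_filter, Finset.filter_filter]
    refine Finset.sum_congr ?_ fun _ _ => rfl
    ext i
    simp [and_comm]
  rw [h2, Finset.sum_const, nsmul_eq_mul, mul_comm]

/-- at most `4 H` doses are positive -/
theorem supp_le {n : ℕ} (L : Finset (Finset (Fin n))) (hL : ∀ S ∈ L, S.card = 4)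
    (g : Fin n → ℝ) (w : Finset (Fin n) → ℝ) (hw : ∀ S, 0 ≤ w S)
    (heq : ∀ i, g i ≠ 0 → ∑ S ∈ L with i ∈ S, w S = 1)
    {H : ℝ} (hH : ∑ S ∈ L, w S = H) :
    ((univ.filter (fun i => g i ≠ 0)).card : ℝ) ≤ 4 * H := by
  classical
  rw [card_filter_eq L g w heq (fun i => g i ≠ 0) (fun i hi => hi), ← hH, Finset.mul_sum]
  refine Finset.sum_le_sum fun S hS => ?_
  have h1 : ((S.filter (fun i => g i ≠ 0)).card : ℝ) ≤ 4 := by
    have := Finset.card_filter_le S (fun i => g i ≠ 0)
    rw [hL S hS] at this
    exact_mod_cast this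
  nlinarith [hw S, mul_le_mul_of_nonneg_left h1 (hw S)]

/-- `u`, `f` = shares of the matching on unit and on uniform sets -/
theorem bound_of
    (star : ∀ v : Fin 4 → Fin 4 → ℝ, (∀ i j, 0 ≤ v i j) → (∀ i, ∑ j, v i j = 1) →
      (∀ i j, v i j = 1 / 4) ∨ (∀ i, ∃ j, v i j = 1) ∨ Phi v (9 / 40) ≤ 31 / 50)
    (Phi_unif : ∀ v : Fin 4 → Fin 4 → ℝ, (∀ i j, v i j = 1 / 4) → ∀ m : ℝ,
      Phi v m = (4 * m) ^ 4)
    (Phi_unit : ∀ v : Fin 4 → Fin 4 → ℝ, (∀ i j, 0 ≤ v i j) → (∀ i, ∑ j, v i j = 1) →
      (∀ i, ∃ j, v i j = 1) → ∀ m : ℝ, Phi v m = 1 - (1 - m) ^ 4)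
    {n : ℕ} (hn : 0 < n) (L : Finset (Finset (Fin n))) (hL : ∀ S ∈ L, S.card = 4)
    (g : Fin n → ℝ) (hg : ∀ i, 0 ≤ g i)
    (w : Finset (Fin n) → ℝ) (hw : ∀ S, 0 ≤ w S) (hS : ∀ S, w S ≠ 0 → S ∈ L ∧ ∑ i ∈ S, g i = 1)
    (heq : ∀ i, g i ≠ 0 → ∑ S ∈ L with i ∈ S, w S = 1)
    {H : ℝ} (hH : ∑ S ∈ L, w S = H) (hpos : 0 < H) (hm : H / n ≤ 9 / 40) :
    ∃ u f : ℝ, 0 ≤ u ∧ 0 ≤ f ∧ u + f ≤ 1 ∧
      ((univ.filter (fun i => g i = 1)).card : ℝ) = u * H ∧
      4 * (f * H) ≤ ((univ.filter (fun i => g i = 1 / 4)).card : ℝ) ∧
      ∑ a : Fin n, ∑ b : Fin n, ∑ c : Fin n, ∑ d : Fin n,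
        (if 1 ≤ g a + g b + g c + g d then (1 : ℝ) else 0) ≤
      (n : ℝ) ^ 4 * (u ^ 4 * (1 - (1 - H / n) ^ 4) + f ^ 4 * (4 * (H / n)) ^ 4 +
        (1 - u ^ 4 - f ^ 4) * (31 / 50)) := by
  classical
  -- rows of sets of positive weight
  have hrow0 : ∀ S j, 0 ≤ row g S j := fun S j => row_nonneg hg S j
  have hrow1 : ∀ S ∈ L, w S ≠ 0 → ∑ j, row g S j = 1 := by
    intro S hSL hw0
    have h1 := sum_row g (hL S hSL) (fun x => x)
    rw [h1]
    exact (hS S hw0).2
  -- indicators
  set iu : Finset (Fin n) → ℝ := fun S => if ∃ j, row g S j = 1 then 1 else 0 with hiu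
  set iff : Finset (Fin n) → ℝ := fun S => if ∀ j, row g S j = 1 / 4 then 1 else 0 with hiff
  have hiu01 : ∀ S, 0 ≤ iu S ∧ iu S ≤ 1 := by
    intro S; rw [hiu]; dsimp only; split_ifs <;> norm_num
  have hif01 : ∀ S, 0 ≤ iff S ∧ iff S ≤ 1 := by
    intro S; rw [hiff]; dsimp only; split_ifs <;> norm_num
  have hexcl : ∀ S, iu S + iff S ≤ 1 := by
    intro S
    rw [hiu, hiff]
    dsimp only
    by_cases h1 : ∃ j, row g S j = 1
    · rw [if_pos h1]
      obtain ⟨j, hj⟩ := h1
      rw [if_neg (fun h => by have := h j; rw [hj] at this; norm_num at this)]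
      norm_num
    · rw [if_neg h1]
      split_ifs <;> norm_num
  -- number of ones and quarters in a row
  have hcount : ∀ (S : Finset (Fin n)), S ∈ L → ∀ t : ℝ,
      ((S.filter (fun i => g i = t)).card : ℝ) = ∑ j, if row g S j = t then (1 : ℝ) else 0 := by
    intro S hSL t
    have h1 := sum_row g (hL S hSL) (fun x => if x = t then (1 : ℝ) else 0)
    rw [h1, Finset.sum_ite, Finset.sum_const_zero, add_zero, Finset.sum_const, nsmul_eq_mul, mul_one]
  have hone : ∀ S ∈ L, w S ≠ 0 → ((S.filter (fun i => g i = 1)).card : ℝ) = iu S := by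
    intro S hSL hw0
    rw [hcount S hSL 1, hiu]
    dsimp only
    have hs := hrow1 S hSL hw0
    have h0 := hrow0 S
    by_cases h1 : ∃ j, row g S j = 1
    · rw [if_pos h1]
      obtain ⟨j, hj⟩ := h1
      have h2 : ∀ i, i ≠ j → row g S i = 0 := by
        intro i hij
        have h3 : row g S i + row g S j ≤ ∑ k, row g S k := by
          have h4 : ∑ k ∈ ({i, j} : Finset (Fin 4)), row g S k ≤ ∑ k, row g S k :=
            Finset.sum_le_sum_of_subset_of_nonneg (Finset.subset_univ _) fun k _ _ => h0 k
          rwa [Finset.sum_pair hij] at h4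
        have h5 := h0 i
        linarith
      rw [Finset.sum_eq_single j]
      · rw [if_pos hj]
      · intro i _ hij
        rw [h2 i hij, if_neg (by norm_num)]
      · intro h; exact absurd (Finset.mem_univ j) h
    · rw [if_neg h1]
      refine Finset.sum_eq_zero fun j _ => ?_
      rw [if_neg (fun h => h1 ⟨j, h⟩)]
  have hqua : ∀ S ∈ L, 4 * iff S ≤ ((S.filter (fun i => g i = 1 / 4)).card : ℝ) := by
    intro S hSL
    rw [hcount S hSL (1 / 4), hiff]
    dsimp only
    by_cases h1 : ∀ j, row g S j = 1 / 4
    · rw [if_pos h1]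
      rw [Finset.sum_congr rfl (g := fun _ => (1 : ℝ)) fun j _ => if_pos (h1 j)]
      simp
    · rw [if_neg h1]
      rw [mul_zero]
      exact Finset.sum_nonneg fun j _ => by split_ifs <;> norm_num
  -- shares
  set lam : Finset (Fin n) → ℝ := fun S => w S / H with hlam
  have hlam0 : ∀ S, 0 ≤ lam S := fun S => div_nonneg (hw S) hpos.le
  have hlam1 : ∑ S ∈ L, lam S = 1 := by
    rw [hlam]
    simp only
    rw [← Finset.sum_div, hH, div_self hpos.ne']
  refine ⟨∑ S ∈ L, lam S * iu S, ∑ S ∈ L, lam S * iff S, ?_, ?_, ?_, ?_, ?_, ?_⟩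
  · exact Finset.sum_nonneg fun S _ => mul_nonneg (hlam0 S) (hiu01 S).1
  · exact Finset.sum_nonneg fun S _ => mul_nonneg (hlam0 S) (hif01 S).1
  · rw [← Finset.sum_add_distrib, ← hlam1]
    refine Finset.sum_le_sum fun S _ => ?_
    nlinarith [mul_le_mul_of_nonneg_left (hexcl S) (hlam0 S)]
  · rw [card_filter_eq L g w heq (fun i => g i = 1) (fun i hi => by rw [hi]; norm_num),
      Finset.sum_mul]
    refine Finset.sum_congr rfl fun S hSL => ?_
    by_cases hw0 : w S = 0
    · rw [hlam]; simp [hw0]
    · rw [hone S hSL hw0, hlam]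
      field_simp
  · rw [card_filter_eq L g w heq (fun i => g i = 1 / 4) (fun i hi => by rw [hi]; norm_num),
      Finset.sum_mul, Finset.mul_sum]
    refine Finset.sum_le_sum fun S hSL => ?_
    have h1 : 4 * (lam S * iff S * H) = w S * (4 * iff S) := by
      rw [hlam]
      field_simp
    rw [h1]
    exact mul_le_mul_of_nonneg_left (hqua S hSL) (hw S)
  · have hcard : (Fintype.card (Fin n) : ℝ) = n := by simp
    have hmix := mix_four L hL heq (by rw [hH]; exact hpos) (by simpa using hn)
    rw [hmix, hH, hcard]
    refine mul_le_mul_of_nonneg_left ?_ (by positivity)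
    have hn' : (0 : ℝ) < n := by exact_mod_cast hn
    have hm0 : 0 ≤ H / n := div_nonneg hpos.le hn'.le
    set m : ℝ := H / n with hmdef
    -- termwise
    have hterm : ∀ A ∈ L, ∀ B ∈ L, ∀ C ∈ L, ∀ D ∈ L,
        w A / H * (w B / H) * (w C / H) * (w D / H) *
          Phi ![row g A, row g B, row g C, row g D] m ≤
        (1 - (1 - m) ^ 4 - 31 / 50) * (lam A * iu A * (lam B * iu B) * (lam C * iu C) *
            (lam D * iu D)) +
          ((4 * m) ^ 4 - 31 / 50) * (lam A * iff A * (lam B * iff B) * (lam C * iff C) *
            (lam D * iff D)) + 31 / 50 * (lam A * lam B * lam C * lam D) := by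
      intro A hA B hB C hC D hD
      have e : w A / H * (w B / H) * (w C / H) * (w D / H) = lam A * lam B * lam C * lam D := rfl
      rw [e]
      by_cases hz : w A = 0 ∨ w B = 0 ∨ w C = 0 ∨ w D = 0
      · have hl : lam A * lam B * lam C * lam D = 0 := by
          rw [hlam]
          rcases hz with h | h | h | h <;> simp [h]
        have hx : ∀ q : Finset (Fin n) → ℝ,
            lam A * q A * (lam B * q B) * (lam C * q C) * (lam D * q D) = 0 := by
          intro q
          have : lam A * q A * (lam B * q B) * (lam C * q C) * (lam D * q D)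
              = (lam A * lam B * lam C * lam D) * (q A * q B * q C * q D) := by ring
          rw [this, hl, zero_mul]
        rw [hl, hx iu, hx iff]
        simp
      · push Not at hz
        obtain ⟨hwA, hwB, hwC, hwD⟩ := hz
        set v : Fin 4 → Fin 4 → ℝ := ![row g A, row g B, row g C, row g D] with hv
        have hv0 : ∀ i j, 0 ≤ v i j := by
          intro i j
          fin_cases i
          · exact hrow0 A j
          · exact hrow0 B j
          · exact hrow0 C j
          · exact hrow0 D j
        have hv1 : ∀ i, ∑ j, v i j = 1 := by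
          intro i
          fin_cases i
          · exact hrow1 A hA hwA
          · exact hrow1 B hB hwB
          · exact hrow1 C hC hwC
          · exact hrow1 D hD hwD
        have hPhi : Phi v m ≤
            (1 - (1 - m) ^ 4 - 31 / 50) * (iu A * iu B * iu C * iu D) +
            ((4 * m) ^ 4 - 31 / 50) * (iff A * iff B * iff C * iff D) + 31 / 50 := by
          by_cases hunif : ∀ i j, v i j = 1 / 4
          · rw [Phi_unif v hunif m]
            have hA' : iff A = 1 := if_pos (fun j => hunif 0 j)
            have hB' : iff B = 1 := if_pos (fun j => hunif 1 j)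
            have hC' : iff C = 1 := if_pos (fun j => hunif 2 j)
            have hD' : iff D = 1 := if_pos (fun j => hunif 3 j)
            have hAu : iu A = 0 := by
              have h1 := hexcl A; have h2 := (hiu01 A).1; linarith
            rw [hA', hB', hC', hD', hAu]
            apply le_of_eq; ring
          · by_cases hunit : ∀ i, ∃ j, v i j = 1
            · rw [Phi_unit v hv0 hv1 hunit m]
              have hA' : iu A = 1 := if_pos (hunit 0)
              have hB' : iu B = 1 := if_pos (hunit 1)
              have hC' : iu C = 1 := if_pos (hunit 2)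
              have hD' : iu D = 1 := if_pos (hunit 3)
              have hAu : iff A = 0 := by
                have h1 := hexcl A; have h2 := (hif01 A).1; linarith
              rw [hA', hB', hC', hD', hAu]
              apply le_of_eq; ring
            · have h3 : Phi v (9 / 40) ≤ 31 / 50 := by
                rcases star v hv0 hv1 with h | h | h
                · exact absurd h hunif
                · exact absurd h hunit
                · exact h
              have h4 : Phi v m ≤ Phi v (9 / 40) :=
                Phi_mono hm0 hm (by norm_num) hv0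
              have h5 : iu A * iu B * iu C * iu D = 0 := by
                by_contra hne
                have hA' : iu A ≠ 0 := fun h => hne (by rw [h]; ring)
                have hB' : iu B ≠ 0 := fun h => hne (by rw [h]; ring)
                have hC' : iu C ≠ 0 := fun h => hne (by rw [h]; ring)
                have hD' : iu D ≠ 0 := fun h => hne (by rw [h]; ring)
                have hh : ∀ S, iu S ≠ 0 → ∃ j, row g S j = 1 := by
                  intro S hne'
                  by_contra hc
                  exact hne' (if_neg hc)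
                apply hunit
                intro i
                fin_cases i
                · exact hh A hA'
                · exact hh B hB'
                · exact hh C hC'
                · exact hh D hD'
              have h6 : iff A * iff B * iff C * iff D = 0 := by
                by_contra hne
                have hA' : iff A ≠ 0 := fun h => hne (by rw [h]; ring)
                have hB' : iff B ≠ 0 := fun h => hne (by rw [h]; ring)
                have hC' : iff C ≠ 0 := fun h => hne (by rw [h]; ring)
                have hD' : iff D ≠ 0 := fun h => hne (by rw [h]; ring)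
                have hh : ∀ S, iff S ≠ 0 → ∀ j, row g S j = 1 / 4 := by
                  intro S hne'
                  by_contra hc
                  exact hne' (if_neg hc)
                apply hunif
                intro i
                fin_cases i
                · exact hh A hA'
                · exact hh B hB'
                · exact hh C hC'
                · exact hh D hD'
              rw [h5, h6]
              linarith
        have hlam4 : 0 ≤ lam A * lam B * lam C * lam D :=
          mul_nonneg (mul_nonneg (mul_nonneg (hlam0 A) (hlam0 B)) (hlam0 C)) (hlam0 D)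
        have h7 := mul_le_mul_of_nonneg_left hPhi hlam4
        refine h7.trans (le_of_eq ?_)
        ring
    have hsum : ∑ A ∈ L, ∑ B ∈ L, ∑ C ∈ L, ∑ D ∈ L,
        w A / H * (w B / H) * (w C / H) * (w D / H) *
          Phi ![row g A, row g B, row g C, row g D] m ≤
        ∑ A ∈ L, ∑ B ∈ L, ∑ C ∈ L, ∑ D ∈ L,
        ((1 - (1 - m) ^ 4 - 31 / 50) * (lam A * iu A * (lam B * iu B) * (lam C * iu C) *
            (lam D * iu D)) +
          ((4 * m) ^ 4 - 31 / 50) * (lam A * iff A * (lam B * iff B) * (lam C * iff C) *
            (lam D * iff D)) + 31 / 50 * (lam A * lam B * lam C * lam D)) :=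
      Finset.sum_le_sum fun A hA => Finset.sum_le_sum fun B hB => Finset.sum_le_sum fun C hC =>
        Finset.sum_le_sum fun D hD => hterm A hA B hB C hC D hD
    refine hsum.trans (le_of_eq ?_)
    simp only [Finset.sum_add_distrib, ← Finset.mul_sum, ← Finset.sum_mul]
    rw [hlam1]
    ring

end K4
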